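import Pool.Agent.W792.GK.Stm

/-!
GK-PA: polynomial approximation of resolvents, uniform over all Hilbert spaces.
-/

namespace Pool.Agent.W645.GKPa

open Pool.Agent.W792.GK Polynomial

theorem poly_approx (C : ℝ) (z : ℂ) (ε : ℝ) (hz : z.im ≠ 0) (hε : 0 < ε) :
    ∃ P : Polynomial ℂ, ∀ x ∈ Set.Icc (-C) C, ‖((x : ℂ) - z)⁻¹ - P.eval (x : ℂ)‖ ≤ ε := by
  have hne : ∀ x : ℝ, (x : ℂ) - z ≠ 0 := by
    intro x h
    have := congrArg Complex.im h
    simp at this
    exact hz this
  have hc : Continuous (fun x : ℝ => ((x : ℂ) - z)⁻¹) := by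
    apply Continuous.inv₀ (by fun_prop) hne
  obtain ⟨p, hp⟩ := exists_polynomial_near_of_continuousOn (-C) C
    (fun x : ℝ => (((x : ℂ) - z)⁻¹).re) (Complex.continuous_re.comp hc).continuousOn (ε / 2)
    (by linarith)
  obtain ⟨q, hq⟩ := exists_polynomial_near_of_continuousOn (-C) C
    (fun x : ℝ => (((x : ℂ) - z)⁻¹).im) (Complex.continuous_im.comp hc).continuousOn (ε / 2)
    (by linarith)
  refine ⟨p.map (algebraMap ℝ ℂ) + Polynomial.C Complex.I * q.map (algebraMap ℝ ℂ), ?_⟩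
  intro x hx
  have hp' := hp x hx
  have hq' := hq x hx
  have e1 : (p.map (algebraMap ℝ ℂ)).eval (x : ℂ) = ((p.eval x : ℝ) : ℂ) := by
    rw [Polynomial.eval_map_algebraMap]
    exact (Polynomial.aeval_algebraMap_apply ℂ x p)
  have e2 : (q.map (algebraMap ℝ ℂ)).eval (x : ℂ) = ((q.eval x : ℝ) : ℂ) := by
    rw [Polynomial.eval_map_algebraMap]
    exact (Polynomial.aeval_algebraMap_apply ℂ x q)
  rw [Polynomial.eval_add, Polynomial.eval_mul, Polynomial.eval_C, e1, e2]
  set w := ((x : ℂ) - z)⁻¹ with hw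
  have key : w - (((p.eval x : ℝ) : ℂ) + Complex.I * ((q.eval x : ℝ) : ℂ))
      = ((w.re - p.eval x : ℝ) : ℂ) + Complex.I * ((w.im - q.eval x : ℝ) : ℂ) := by
    conv_lhs => rw [← Complex.re_add_im w]
    push_cast
    ring
  rw [key]
  calc ‖((w.re - p.eval x : ℝ) : ℂ) + Complex.I * ((w.im - q.eval x : ℝ) : ℂ)‖
      ≤ ‖((w.re - p.eval x : ℝ) : ℂ)‖ + ‖Complex.I * ((w.im - q.eval x : ℝ) : ℂ)‖ :=
        norm_add_le _ _
    _ = |w.re - p.eval x| + |w.im - q.eval x| := by
        rw [norm_mul, Complex.norm_I, one_mul, Complex.norm_real, Complex.norm_real]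
        rfl
    _ ≤ ε := by
        rw [abs_sub_comm] at hp' hq'
        linarith

theorem main : S_PA := by
  intro C z ε hz hε
  obtain ⟨P, hP⟩ := poly_approx (max C 0) z ε hz hε
  refine ⟨P, ?_⟩
  intro E _ _ _ T hT hTC
  rcases subsingleton_or_nontrivial E with hE | hE
  · haveI : Subsingleton (E →L[ℂ] E) := ⟨fun a b => by ext x; exact Subsingleton.elim _ _⟩
    refine ⟨isUnit_of_subsingleton _, ?_⟩
    rw [Subsingleton.elim (Ring.inverse (T - z • (1 : E →L[ℂ] E)) - Polynomial.aeval T P) 0,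
      norm_zero]
    exact hε.le
  · haveI : Nontrivial (E →L[ℂ] E) := inferInstance
    have hN : IsStarNormal T := hT.isStarNormal
    have hsp : ∀ w ∈ spectrum ℂ T, ∃ x ∈ Set.Icc (-(max C 0)) (max C 0), w = (x : ℂ) := by
      intro w hw
      refine ⟨w.re, ?_, ?_⟩
      · have h1 : ‖w‖ ≤ ‖T‖ := spectrum.norm_le_norm_of_mem hw
        have h2 : |w.re| ≤ ‖w‖ := Complex.abs_re_le_norm w
        have h3 : |w.re| ≤ max C 0 := h2.trans (h1.trans (hTC.trans (le_max_left _ _)))
        exact abs_le.mp h3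
      · exact hT.mem_spectrum_eq_re hw
    have hne : ∀ w ∈ spectrum ℂ T, w - z ≠ 0 := by
      intro w hw h
      obtain ⟨x, _, rfl⟩ := hsp w hw
      have := congrArg Complex.im h
      simp at this
      exact hz this
    have hcont : ContinuousOn (fun w : ℂ => w - z) (spectrum ℂ T) := by fun_prop
    have hTz : cfc (fun w : ℂ => w - z) T = T - z • (1 : E →L[ℂ] E) := by
      rw [cfc_sub (fun w : ℂ => w) (fun _ : ℂ => z) T (by fun_prop) (by fun_prop),
        cfc_id' ℂ T, cfc_const z T, Algebra.algebraMap_eq_smul_one]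
    have hinv : cfc (fun w : ℂ => (w - z)⁻¹) T = Ring.inverse (T - z • (1 : E →L[ℂ] E)) := by
      rw [← hTz]
      exact cfc_inv (fun w : ℂ => w - z) T hne hcont hN
    have hunit : IsUnit (T - z • (1 : E →L[ℂ] E)) := by
      rw [← hTz, isUnit_cfc_iff (fun w : ℂ => w - z) T hcont hN]
      exact hne
    refine ⟨hunit, ?_⟩
    have hpoly : cfc (fun w : ℂ => P.eval w) T = Polynomial.aeval T P := cfc_polynomial P T hN
    have hci : ContinuousOn (fun w : ℂ => (w - z)⁻¹) (spectrum ℂ T) := hcont.inv₀ hne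
    have hcp : ContinuousOn (fun w : ℂ => P.eval w) (spectrum ℂ T) :=
      P.continuous.continuousOn
    rw [← hinv, ← hpoly, ← cfc_sub _ _ T hci hcp]
    refine norm_cfc_le hε.le ?_
    intro w hw
    obtain ⟨x, hx, rfl⟩ := hsp w hw
    exact hP x hx

end Pool.Agent.W645.GKPa
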